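import Pool.Agent.Q131.RM.Ex
import Pool.Agent.Q131.RM.GenEx

/-!
# MP_cb6704_co: matroid matching in generic rigidity matroids of odd dimension

For every `k ≥ 2` and every `n ≥ 6k + 11` the generic `(2k+1)`-dimensional rigidity matroid of
`K_n` does not have the matroid matching property.
-/

set_option autoImplicit false

open Finset Module

namespace Pool.Agent.Results.MP_cb6704_co.NoMatchingProperty

/-- The edges of `K_n`: the unordered pairs of different vertices. -/
abbrev Edge (n : ℕ) : Type := {e : Sym2 (Fin n) // ¬ e.IsDiag}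

/-- `p` is generic: its `dn` coordinates are algebraically independent over `ℚ`. -/
def IsGeneric {n d : ℕ} (p : Fin n → Fin d → ℝ) : Prop :=
  AlgebraicIndependent ℚ (fun c : Fin n × Fin d => p c.1 c.2)

/-- The row of the edge `uv` in the rigidity matrix `R(K_n, p)`: it carries `p u - p v` in the
columns of `u`, `p v - p u` in the columns of `v`, and zeros elsewhere. -/
def row {n d : ℕ} (p : Fin n → Fin d → ℝ) (e : Edge n) : Fin n → Fin d → ℝ :=
  Sym2.lift ⟨fun u v => (Pi.single u (p u - p v) + Pi.single v (p v - p u) :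
    Fin n → Fin d → ℝ), fun _ _ => add_comm _ _⟩ e.1

section matroid

variable {E W : Type} [DecidableEq E] [Fintype E] [AddCommGroup W] [Module ℝ W]

/-- The rank function of the matroid on `E` which the family of vectors `v` represents. -/
noncomputable def rk (v : E → W) (S : Finset E) : ℕ :=
  finrank ℝ (Submodule.span ℝ (v '' (S : Set E)))

/-- `Z` is a flat: every further element increases the rank. -/
def IsFlat (v : E → W) (Z : Finset E) : Prop := ∀ e, e ∉ Z → rk v Z < rk v (insert e Z)

/-- The set `H` of pairs is a matroid matching: the union of its pairs has rank `2|H|`. -/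
def IsMatching (v : E → W) (H : Finset (Finset E)) : Prop := rk v (H.biUnion id) = 2 * H.card

open scoped Classical in
/-- `ν(ℋ)`: the largest size of a matroid matching contained in `ℋ`. -/
noncomputable def nu (v : E → W) (H : Finset (Finset E)) : ℕ :=
  (H.powerset.filter (fun H' => IsMatching v H')).sup Finset.card

/-- The right hand side of `(*)` for the flat `Z` and the partition `π` of `ℋ`. -/
noncomputable def value (v : E → W) {H : Finset (Finset E)} (Z : Finset E)
    (π : Finpartition H) : ℕ :=
  rk v Z + ∑ B ∈ π.parts, (rk v (Z ∪ B.biUnion id) - rk v Z) / 2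

/-- The matroid matching property: for every set `ℋ` of 2-element subsets of `E`, the number
`ν(ℋ)` is the minimum of the values of all flats and all partitions. -/
def MatchingProperty (v : E → W) : Prop :=
  ∀ H : Finset (Finset E), (∀ P ∈ H, P.card = 2) →
    IsLeast {m : ℕ | ∃ Z : Finset E, IsFlat v Z ∧ ∃ π : Finpartition H, m = value v Z π} (nu v H)

theorem isMatching_empty (v : E → W) : IsMatching v ∅ := by
  rw [IsMatching, Finset.biUnion_empty, Finset.card_empty, mul_zero, rk, Finset.coe_empty,
    Set.image_empty, Submodule.span_empty, finrank_bot]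

theorem nu_add_two_le {v : E → W} {H : Finset (Finset E)}
    (h : ∀ H' : Finset (Finset E), H' ⊆ H → IsMatching v H' → H'.card + 2 ≤ H.card) :
    nu v H + 2 ≤ H.card := by
  classical
  have h0 : (∅ : Finset (Finset E)).card + 2 ≤ H.card :=
    h ∅ (Finset.empty_subset _) (isMatching_empty v)
  have h1 : nu v H ≤ H.card - 2 := by
    refine Finset.sup_le fun H' hH' => ?_
    have h2 := Finset.mem_filter.1 hH'
    have := h H' (Finset.mem_powerset.1 h2.1) h2.2
    omega
  rw [Finset.card_empty] at h0
  omega

end matroid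

/-- Generic points exist, and for `k ≥ 2` and `n ≥ 6k + 11` the rigidity matroid
`R_{2k+1}(K_n)` does not have the matroid matching property. -/
theorem result :
    (∀ n d : ℕ, ∃ p : Fin n → Fin d → ℝ, IsGeneric p) ∧
    ∀ k : ℕ, 2 ≤ k → ∀ n : ℕ, 6 * k + 11 ≤ n →
      ∀ p : Fin n → Fin (2 * k + 1) → ℝ, IsGeneric p → ¬ MatchingProperty (row p) := by
  refine ⟨fun n d => Pool.Agent.Q131.RM.exists_gen (Fin n) d, ?_⟩
  intro k hk n hn p hp hM
  obtain ⟨f⟩ : Nonempty (Pool.Agent.Q131.RM.AI k ⊕ (Pool.Agent.Q131.RM.BI k ⊕
      Pool.Agent.Q131.RM.BI k) ↪ Fin n) := by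
    apply Function.Embedding.nonempty_of_card_le
    rw [Fintype.card_sum, Fintype.card_sum, Pool.Agent.Q131.RM.card_AI,
      Pool.Agent.Q131.RM.card_BI, Fintype.card_fin]
    omega
  obtain ⟨α, 𝓑, hD⟩ := Pool.Agent.Q131.RM.data_U (p := p) f.injective hp hk
  set H := Pool.Agent.Q131.RM.HU f.injective with hH
  have hle : ∀ H' : Finset (Finset (Edge n)), H' ⊆ H → IsMatching (row p) H' →
      H'.card + 2 ≤ H.card := fun H' h1 h2 => hD.matching_le h1 h2
  have hnu : nu (row p) H + 2 ≤ H.card := nu_add_two_le hle
  obtain ⟨⟨Z, -, π, hv⟩, -⟩ := hM H hD.two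
  have hge : H.card ≤ value (row p) Z π + 1 := hD.bound_ge (Finset.subset_univ Z) π
  omega

end Pool.Agent.Results.MP_cb6704_co.NoMatchingProperty
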